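import Mathlib

/-!
# Independence number, even-distance counts and local independence (MP_c843e9_co)

For a connected graph `G` with at least two vertices,
`α(G) ≤ 1 + δ_even(G) (Λ(G) - 1)`.

Proof: fix `v` and send a vertex `x` of a maximum independent set `I` to itself if `dist v x` is
even, and to a neighbour of `x` closer to `v` otherwise.  The image lies in the set of vertices at
even distance from `v`.  The fibre over `v` has at most `Λ` elements, and the fibre over every other
vertex `u` has at most `Λ - 1` elements, since it can be extended by a neighbour of `u` that is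
closer to `v`.
-/

set_option autoImplicit false

open SimpleGraph Finset

namespace Pool.Agent.Results.MP_c843e9_co.EvenDistance

variable {V : Type*}

/-- `D_even(v)`: the number of vertices at even distance from `v` (with `v` itself). -/
noncomputable def evenCount (G : SimpleGraph V) (v : V) : ℕ := {u | Even (G.dist v u)}.ncard

/-- `λ(v) = α(G[N(v)])`. -/
noncomputable def localIndep (G : SimpleGraph V) (v : V) : ℕ :=
  (G.induce (G.neighborSet v)).indepNum

/-- `δ_even(G)`: the minimum of `D_even(v)` over all vertices. -/
noncomputable def minEvenCount (G : SimpleGraph V) : ℕ := ⨅ v, evenCount G v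

/-- `Λ(G)`: the maximum of `λ(v)` over all vertices. -/
noncomputable def maxLocalIndep (G : SimpleGraph V) : ℕ := ⨆ v, localIndep G v

variable [Fintype V]

theorem le_localIndep {G : SimpleGraph V} {u : V} (S : Finset V) (hS : ∀ x ∈ S, G.Adj u x)
    (hI : G.IsIndepSet (S : Set V)) : S.card ≤ localIndep G u := by
  classical
  have hinj : Function.Injective (fun x : S => (⟨x.1, hS x.1 x.2⟩ : G.neighborSet u)) := by
    intro x y h
    exact Subtype.ext (congrArg (fun z : G.neighborSet u => z.1) h)
  let T : Finset (G.neighborSet u) := S.attach.image fun x => ⟨x.1, hS x.1 x.2⟩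
  have hT : T.card = S.card := by
    rw [Finset.card_image_of_injective _ hinj, Finset.card_attach]
  have hTI : (G.induce (G.neighborSet u)).IsIndepSet (T : Set (G.neighborSet u)) := by
    intro x hx y hy hxy hadj
    simp only [T, Finset.coe_image, Set.mem_image] at hx hy
    obtain ⟨a, -, rfl⟩ := hx
    obtain ⟨b, -, rfl⟩ := hy
    exact hI a.2 b.2 (fun h => hxy (by simp [h])) hadj
  rw [← hT]
  exact hTI.card_le_indepNum

theorem localIndep_le (G : SimpleGraph V) (u : V) : localIndep G u ≤ maxLocalIndep G :=
  le_ciSup (f := fun v => localIndep G v) (Set.finite_range _).bddAbove u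

theorem exists_parent {G : SimpleGraph V} (hG : G.Connected) {v x : V} (hx : x ≠ v) :
    ∃ p, G.Adj p x ∧ G.dist v p + 1 = G.dist v x := by
  obtain ⟨w, hw⟩ := hG.exists_walk_length_eq_dist x v
  cases w with
  | nil => exact absurd rfl hx
  | @cons _ p _ h w =>
    refine ⟨p, h.symm, ?_⟩
    rw [Walk.length_cons] at hw
    have h1 : G.dist p v ≤ w.length := dist_le w
    have h2 : G.dist x v ≤ G.dist x p + G.dist p v := hG.dist_triangle
    have h3 : G.dist x p = 1 := dist_eq_one_iff_adj.mpr h
    rw [G.dist_comm (u := v) (v := p), G.dist_comm (u := v) (v := x)]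
    omega

theorem not_adj_of_dist {G : SimpleGraph V} (hG : G.Connected) {v x y : V}
    (h : G.dist v x + 2 ≤ G.dist v y) : ¬ G.Adj x y := by
  intro hadj
  have h2 : G.dist v y ≤ G.dist v x + G.dist x y := hG.dist_triangle
  have h3 : G.dist x y = 1 := dist_eq_one_iff_adj.mpr hadj
  omega

/-- Every connected graph with at least two vertices satisfies
`α(G) ≤ 1 + δ_even(G) (Λ(G) - 1)`. -/
theorem result (G : SimpleGraph V) (hG : G.Connected) (hV : 2 ≤ Fintype.card V) :
    (G.indepNum : ℤ) ≤ 1 + (minEvenCount G : ℤ) * ((maxLocalIndep G : ℤ) - 1) := by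
  classical
  haveI : Nonempty V := hG.nonempty
  obtain ⟨v, hv⟩ : ∃ v, evenCount G v = minEvenCount G := by
    have := Nat.sInf_mem (Set.range_nonempty (fun v => evenCount G v))
    exact this
  rw [← hv]
  obtain ⟨I, hI⟩ := G.exists_isNIndepSet_indepNum
  have hIi : ∀ x ∈ I, ∀ y ∈ I, ¬ G.Adj x y := by
    intro x hx y hy hadj
    exact hI.isIndepSet hx hy hadj.ne hadj
  -- the parent function
  have hpar : ∀ x, ∃ p, x ≠ v → G.Adj p x ∧ G.dist v p + 1 = G.dist v x := by
    intro x
    by_cases hx : x = v
    · exact ⟨v, fun h => absurd hx h⟩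
    · obtain ⟨p, hp⟩ := exists_parent hG hx
      exact ⟨p, fun _ => hp⟩
  choose par hpar using hpar
  let φ : V → V := fun x => if Even (G.dist v x) then x else par x
  let E : Finset V := Finset.univ.filter fun u => Even (G.dist v u)
  have hEcard : evenCount G v = E.card := by
    rw [evenCount, ← Set.ncard_coe_finset]
    congr 1
    ext u
    simp [E]
  have hvE : v ∈ E := by simp [E]
  have hφ : ∀ x ∈ I, φ x ∈ E := by
    intro x _
    by_cases hx : Even (G.dist v x)
    · simp [φ, E, hx]
    · have hxv : x ≠ v := by
        rintro rfl
        simp at hx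
      have h2 := (hpar x hxv).2
      have h3 : Even (G.dist v (par x)) := by
        rw [Nat.not_even_iff_odd] at hx
        obtain ⟨k, hk⟩ := hx
        exact ⟨k, by omega⟩
      simp [φ, E, hx, h3]
  have hcard : I.card = ∑ u ∈ E, (I.filter fun x => φ x = u).card :=
    Finset.card_eq_sum_card_fiberwise hφ
  -- elements of a fibre
  have hfib : ∀ u ∈ E, ∀ x ∈ I, φ x = u → x = u ∨ (G.Adj u x ∧ G.dist v x = G.dist v u + 1) := by
    intro u _ x _ hxu
    by_cases hx : Even (G.dist v x)
    · left
      simpa [φ, hx] using hxu
    · right
      have hxv : x ≠ v := by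
        rintro rfl
        simp at hx
      have h2 : par x = u := by simpa [φ, hx] using hxu
      have h3 := hpar x hxv
      rw [h2] at h3
      exact ⟨h3.1, by omega⟩
  have hfibmem : ∀ u ∈ E, u ∈ I → (I.filter fun x => φ x = u) ⊆ {u} := by
    intro u hu huI x hx
    rw [Finset.mem_filter] at hx
    rcases hfib u hu x hx.1 hx.2 with h | h
    · simp [h]
    · exact absurd h.1 (hIi u huI x hx.1)
  have hfibnot : ∀ u ∈ E, u ∉ I → ∀ x ∈ (I.filter fun x => φ x = u),
      G.Adj u x ∧ G.dist v x = G.dist v u + 1 := by
    intro u hu huI x hx
    rw [Finset.mem_filter] at hx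
    rcases hfib u hu x hx.1 hx.2 with h | h
    · exact absurd (h ▸ hx.1) huI
    · exact h
  have hind : ∀ u, G.IsIndepSet ((I.filter fun x => φ x = u : Finset V) : Set V) := by
    intro u x hx y hy _
    rw [Finset.mem_coe, Finset.mem_filter] at hx hy
    exact hIi x hx.1 y hy.1
  have hv0 : (I.filter fun x => φ x = v).card ≤ maxLocalIndep G := by
    refine le_trans ?_ (localIndep_le G v)
    by_cases hvI : v ∈ I
    · refine (Finset.card_le_card (hfibmem v hvE hvI)).trans ?_
      haveI : Nontrivial V := Fintype.one_lt_card_iff_nontrivial.mp (by omega)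
      obtain ⟨w, hw⟩ : ∃ w, G.Adj v w := hG.preconnected.exists_adj_of_nontrivial v
      rw [Finset.card_singleton, ← Finset.card_singleton w]
      refine le_localIndep {w} ?_ ?_
      · intro x hx
        rw [Finset.mem_singleton] at hx
        exact hx ▸ hw
      · intro x hx y hy hxy
        simp only [Finset.coe_singleton, Set.mem_singleton_iff] at hx hy
        exact absurd (hx.trans hy.symm) hxy
    · exact le_localIndep _ (fun x hx => (hfibnot v hvE hvI x hx).1) (hind v)
  have hu0 : ∀ u ∈ E.erase v, ((I.filter fun x => φ x = u).card : ℤ) ≤ (maxLocalIndep G : ℤ) - 1 := by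
    intro u hu
    rw [Finset.mem_erase] at hu
    obtain ⟨huv, huE⟩ := hu
    obtain ⟨q, hq⟩ := exists_parent hG huv
    suffices h : (I.filter fun x => φ x = u).card + 1 ≤ maxLocalIndep G by
      have : (((I.filter fun x => φ x = u).card + 1 : ℕ) : ℤ) ≤ (maxLocalIndep G : ℤ) := by
        exact_mod_cast h
      push_cast at this
      linarith
    by_cases huI : u ∈ I
    · -- the neighbourhood of `q` contains `u` and a parent of `q`
      have hEu : Even (G.dist v u) := by simpa [E] using huE
      have hqv : q ≠ v := by
        rintro rfl
        rw [dist_self] at hq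
        rw [← hq.2] at hEu
        simp at hEu
      obtain ⟨r, hr⟩ := exists_parent hG hqv
      have hru : r ≠ u := by
        rintro rfl
        omega
      have h1 : ({r, u} : Finset V).card ≤ localIndep G q := by
        refine le_localIndep _ ?_ ?_
        · intro x hx
          rw [Finset.mem_insert, Finset.mem_singleton] at hx
          rcases hx with rfl | rfl
          · exact hr.1.symm
          · exact hq.1
        · have hnr : ¬ G.Adj r u := not_adj_of_dist hG (v := v) (x := r) (y := u) (by omega)
          intro x hx y hy hxy
          simp only [Finset.coe_insert, Finset.coe_singleton, Set.mem_insert_iff,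
            Set.mem_singleton_iff] at hx hy
          rcases hx with rfl | rfl <;> rcases hy with rfl | rfl
          · exact absurd rfl hxy
          · exact hnr
          · exact fun h => hnr h.symm
          · exact absurd rfl hxy
      rw [Finset.card_pair hru] at h1
      have h2 := Finset.card_le_card (hfibmem u huE huI)
      rw [Finset.card_singleton] at h2
      have h3 := localIndep_le G q
      omega
    · have hqn : q ∉ (I.filter fun x => φ x = u) := by
        intro hqm
        have := (hfibnot u huE huI q hqm).2
        omega
      rw [← Finset.card_insert_of_notMem hqn]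
      refine le_trans (le_localIndep _ ?_ ?_) (localIndep_le G u)
      · intro x hx
        rw [Finset.mem_insert] at hx
        rcases hx with rfl | hx
        · exact hq.1.symm
        · exact (hfibnot u huE huI x hx).1
      · intro x hx y hy hxy
        rw [Finset.mem_coe, Finset.mem_insert] at hx hy
        rcases hx with rfl | hx <;> rcases hy with rfl | hy
        · exact absurd rfl hxy
        · have := (hfibnot u huE huI y hy).2
          exact not_adj_of_dist hG (v := v) (x := x) (y := y) (by omega)
        · have := (hfibnot u huE huI x hx).2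
          exact fun h => not_adj_of_dist hG (v := v) (x := y) (y := x) (by omega) h.symm
        · exact hind u hx hy hxy
  have hsum : (I.card : ℤ) ≤ (maxLocalIndep G : ℤ) + ∑ _u ∈ E.erase v, ((maxLocalIndep G : ℤ) - 1) := by
    rw [hcard, ← Finset.add_sum_erase E _ hvE]
    push_cast
    refine add_le_add (by exact_mod_cast hv0) (Finset.sum_le_sum hu0)
  rw [Finset.sum_const, Finset.card_erase_of_mem hvE] at hsum
  rw [← hI.card_eq, hEcard]
  have hEpos : 1 ≤ E.card := Finset.card_pos.mpr ⟨v, hvE⟩
  rw [nsmul_eq_mul, Nat.cast_sub hEpos] at hsum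
  push_cast at hsum
  linarith

end Pool.Agent.Results.MP_c843e9_co.EvenDistance
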